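import Pool.Agent.Helper35.HC.StG

/-!
Project HC, module IT3: infinite time, in the sphere (codimension two).
-/

set_option autoImplicit false

namespace Helper91.HC

open Helper35.HC Helper35.HSF Helper35.MS Helper35.PI Helper35.PI2 Helper32.CL
open scoped ContDiff Manifold Topology ENNReal BigOperators
open MeasureTheory Set Filter

private theorem rr_sgN {n : ℕ} (hn : 0 < n) (t : ℝ) :
    rr n (sgN n t) = Real.exp (-(2 * n * t)) := by
  have hn0 : (0 : ℝ) < n := by exact_mod_cast hn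
  unfold rr sgN
  field_simp
  ring

private theorem tmN_sgN {n : ℕ} (hn : 0 < n) (t : ℝ) : tmN n (sgN n t) = t := by
  have hn0 : (0 : ℝ) < n := by exact_mod_cast hn
  unfold tmN
  rw [rr_sgN hn, Real.log_exp]
  field_simp

private theorem sgN_lt {n : ℕ} (hn : 0 < n) (t : ℝ) : sgN n t < 1 / (2 * n) := by
  have hn0 : (0 : ℝ) < n := by exact_mod_cast hn
  unfold sgN
  apply div_lt_div_of_pos_right _ (by positivity)
  linarith [Real.exp_pos (-(2 * (n : ℝ) * t))]

private theorem sgN_mono {n : ℕ} (hn : 0 < n) {s t : ℝ} (h : s ≤ t) : sgN n s ≤ sgN n t := by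
  have hn0 : (0 : ℝ) < n := by exact_mod_cast hn
  unfold sgN
  apply div_le_div_of_nonneg_right _ (by positivity)
  have h1 : Real.exp (-(2 * (n : ℝ) * t)) ≤ Real.exp (-(2 * n * s)) := by
    apply Real.exp_le_exp.mpr
    have : 2 * (n : ℝ) * s ≤ 2 * n * t := mul_le_mul_of_nonneg_left h (by positivity)
    linarith
  linarith

private theorem ISN_eq {n : ℕ} (hn : 0 < n) : ISN n (1 / (2 * n)) = Ici (0 : ℝ) := by
  ext t
  unfold ISN
  constructor
  · exact fun h => h.1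
  · exact fun h => ⟨h, sgN_lt hn t⟩

private theorem lim_zero {N : ℕ} (x : EE N) (K T t' : ℝ) (ht : t' < T)
    (h : ∀ t ∈ Ico t' T, ‖x‖ ≤ K * Real.sqrt (T - t)) : x = 0 := by
  have h1 : Tendsto (fun t : ℝ => K * Real.sqrt (T - t)) (𝓝[<] T) (𝓝 0) := by
    have h2 : Continuous (fun t : ℝ => K * Real.sqrt (T - t)) := by fun_prop
    have h3 := (h2.tendsto T).mono_left (nhdsWithin_le_nhds (s := Iio T))
    simpa using h3
  have h4 : ∀ᶠ t in 𝓝[<] T, ‖x‖ ≤ K * Real.sqrt (T - t) := by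
    have h5 : Ico t' T ∈ 𝓝[<] T := Ico_mem_nhdsLT ht
    filter_upwards [h5] with t ht using h t ht
  have h6 : ‖x‖ ≤ 0 := ge_of_tendsto h1 h4
  exact norm_le_zero_iff.1 h6

theorem hIT3 (hCN3 : StCN3) (hRIN : StRIN) (hRPD : StRPD) (hRNT : StRNT) (hHSN : StHSN)
    (hCTN : StCTN) : StIT3 := by
  intro n hn3 M _ _ _ _ _ _ F hF hP
  have hn1 : 1 ≤ n := by omega
  have hnp : 0 < n := by omega
  have hn0 : (0 : ℝ) < n := by exact_mod_cast hnp
  have hn1' : (1 : ℝ) ≤ n := by exact_mod_cast hn1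
  have hud : UniqueDiffOn ℝ (Ici (0 : ℝ)) := uniqueDiffOn_Ici 0
  obtain ⟨TE, hTE⟩ : ∃ TE : ℝ, TE = 1 / (2 * n) := ⟨_, rfl⟩
  have hTE0 : 0 < TE := by rw [hTE]; positivity
  have hTE1 : 2 * n * TE = 1 := by rw [hTE]; field_simp
  have hI : ISN n TE = Ici 0 := by rw [hTE]; exact ISN_eq hnp
  have hF' : SMCF n (ISN n TE) F := by rw [hI]; exact hF
  obtain ⟨hfl, hcn⟩ := hCN3 n hn1 M F TE hTE0 hTE1.le hF'
  obtain ⟨cK, E, D, B, c, l₁, t₁, hHK, ht₁, hl0, hl1, hRg⟩ := hRIN n hn3 M F TE hTE0 hTE1.le hF' hP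
  haveI : Nonempty M := inferInstance
  obtain ⟨ts, κ₀, δ, hPD⟩ := hRPD n hn3 cK E D B c hHK M TE (FEN n F) hfl hTE1.le t₁ l₁ ht₁ hl0
    hl1 hRg (Or.inl hTE1)
  obtain ⟨hdiff, x, G, L, C, α, t₂, hGc, hGr, hC0, hα0, hα1, ht₂, hrate⟩ :=
    hRNT n (by omega) (n + 3) M TE (FEN n F) ts κ₀ δ hPD
  have ht₂0 : 0 < t₂ := lt_of_lt_of_le hPD.ts0.1 ht₂.1
  obtain ⟨q₀⟩ := (inferInstance : Nonempty M)
  -- rr = 2 n (TE - t)
  have hrr : ∀ t : ℝ, rr n t = 2 * n * (TE - t) := by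
    intro t
    unfold rr
    linarith
  -- the limit point is the origin
  have hx : x = 0 := by
    refine lim_zero x (C + Real.sqrt (2 * n)) TE t₂ ht₂.2 ?_
    intro t ht
    have h1 := ((hrate t ht).2 q₀).1
    have h2 := hfl.sph q₀ t ⟨lt_of_lt_of_le ht₂0 ht.1, ht.2⟩
    have h3 : ‖FEN n F q₀ t‖ = Real.sqrt (2 * n) * Real.sqrt (TE - t) := by
      rw [← Real.sqrt_mul (by positivity), ← hrr t, ← h2, Real.sqrt_sq (norm_nonneg _)]
    have h4 : ‖x‖ ≤ ‖FEN n F q₀ t‖ + ‖FEN n F q₀ t - x‖ := by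
      have := norm_sub_le (FEN n F q₀ t) (FEN n F q₀ t - x)
      simpa using this
    rw [h3] at h4
    linarith
  subst hx
  obtain ⟨hfr, hcc⟩ := hCTN n (n + 3) M (Ici 0) F hF
  obtain ⟨-, -, hcA⟩ := hcc hud
  -- hS2 = AA - n
  have hS : ∀ t : ℝ, 0 ≤ t → ∀ q, hS2 (n := n) F q t = AA (n := n) F q t - n := by
    intro t ht q
    obtain ⟨f1, f2⟩ := hfr t ht
    obtain ⟨-, f3, -, f4⟩ := f2 q t
    have h1 := (hHSN n (n + 3) hn1 M univ (fun q (_ : ℝ) => F q t) f1 t (mem_univ _)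
      (fun q => hF.sph q t ht) q).2.2.2.1
    rw [f3, f4] at h1
    exact h1
  -- norm of G
  have hGn : ∀ q, ‖G q‖ = 1 := by
    intro q
    have h1 : G q ∈ range G := mem_range_self q
    rw [hGr] at h1
    obtain ⟨v, hv, hv2⟩ := h1
    rw [← hv2, L.norm_map]
    simpa using hv
  -- bound of AA on the compact set
  obtain ⟨t', ht'⟩ : ∃ t', t' = tmN n t₂ := ⟨_, rfl⟩
  have ht₂I : t₂ ∈ Ico 0 TE := ⟨ht₂0.le, ht₂.2⟩
  have hst' : sgN n t' = t₂ := by rw [ht']; exact (hcn t₂ ht₂I).2.1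
  have ht'0 : 0 ≤ t' := by
    have := (hcn t₂ ht₂I).1
    rw [hI, ← ht'] at this
    exact this
  obtain ⟨B₀, hB⟩ := (isCompact_univ.prod (isCompact_Icc (a := (0 : ℝ)) (b := t'))).exists_bound_of_continuousOn
    (hcA.mono (Set.prod_mono le_rfl (fun t ht => ht.1) :
      (univ : Set M) ×ˢ Icc (0 : ℝ) t' ⊆ univ ×ˢ Ici 0))
  have hB' : ∀ t : ℝ, 0 ≤ t → t ≤ t' → ∀ q, AA (n := n) F q t ≤ |B₀| := by
    intro t h1 h2 q
    have h3 := hB (q, t) ⟨mem_univ _, h1, h2⟩
    exact (le_abs_self _).trans (h3.trans (le_abs_self _))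
  obtain ⟨a, ha⟩ : ∃ a : ℝ, a = 2 * n * α := ⟨_, rfl⟩
  have ha0 : 0 < a := by rw [ha]; positivity
  -- facts at the large times
  have hlarge : ∀ t : ℝ, t' ≤ t → sgN n t ∈ Ico t₂ TE ∧ rr n (sgN n t) = Real.exp (-(2 * n * t)) ∧
      0 < TE - sgN n t ∧ (TE - sgN n t) ^ α ≤ Real.exp (-a * t) ∧
      ∀ q, (1 / Real.sqrt (2 * n * (TE - sgN n t))) • (FEN n F q (sgN n t) - 0) = F q t := by
    intro t ht
    have hτ : sgN n t ∈ Ico t₂ TE := by
      constructor
      · rw [← hst']; exact sgN_mono hnp ht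
      · rw [hTE]; exact sgN_lt hnp t
    have e0 := rr_sgN hnp t
    have e1 : 0 < TE - sgN n t := by linarith [hτ.2]
    refine ⟨hτ, e0, e1, ?_, ?_⟩
    · have e2 : 2 * n * (TE - sgN n t) = Real.exp (-(2 * n * t)) := by rw [← hrr, e0]
      have e3 : TE - sgN n t ≤ Real.exp (-(2 * n * t)) := by
        rw [← e2]
        nlinarith
      have e4 := Real.rpow_le_rpow e1.le e3 hα0.le
      rw [← Real.exp_mul] at e4
      refine e4.trans (le_of_eq ?_)
      congr 1
      rw [ha]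
      ring
    · intro q
      have e2 : 0 < rr n (sgN n t) := by rw [e0]; exact Real.exp_pos _
      rw [sub_zero, ← hrr]
      unfold FEN
      rw [tmN_sgN hnp, smul_smul, one_div, inv_mul_cancel₀ (Real.sqrt_pos.mpr e2).ne', one_smul]
  refine ⟨hdiff, G, L, 3 * n * C + (2 + |B₀|) * Real.exp (a * t'), a, t', hGc, hGr, ha0, ?_, ?_⟩
  · intro t ht p q hpq
    obtain ⟨h1, h2, h3, h4, h5⟩ := hlarge t ht
    apply (hrate (sgN n t) h1).1
    show FEN n F p (sgN n t) = FEN n F q (sgN n t)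
    unfold FEN
    rw [tmN_sgN hnp]
    exact congrArg _ hpq
  intro t ht q
  have hBe : 0 ≤ (2 + |B₀|) * Real.exp (a * t') := by positivity
  rcases le_or_gt t t' with hle | hgt
  · -- small times
    have he : 1 ≤ Real.exp (a * t') * Real.exp (-a * t) := by
      rw [← Real.exp_add]
      apply Real.one_le_exp
      have : a * t ≤ a * t' := mul_le_mul_of_nonneg_left hle ha0.le
      linarith
    have hCe : 0 ≤ 3 * n * C * Real.exp (-a * t) := by positivity
    have hkey : 2 + |B₀| ≤ (3 * n * C + (2 + |B₀|) * Real.exp (a * t')) * Real.exp (-a * t) := by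
      have h1 : (3 * n * C + (2 + |B₀|) * Real.exp (a * t')) * Real.exp (-a * t)
        = 3 * n * C * Real.exp (-a * t)
          + (2 + |B₀|) * (Real.exp (a * t') * Real.exp (-a * t)) := by ring
      rw [h1]
      have h2 : (2 + |B₀|) * 1 ≤ (2 + |B₀|) * (Real.exp (a * t') * Real.exp (-a * t)) :=
        mul_le_mul_of_nonneg_left he (by positivity)
      linarith
    constructor
    · have h1 : ‖F q t - G q‖ ≤ 2 := by
        have := norm_sub_le (F q t) (G q)
        rw [hF.sph q t ht, hGn q] at this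
        linarith
      linarith [abs_nonneg B₀]
    · rw [hS t ht q]
      have := hB' t ht hle q
      linarith
  · -- large times
    obtain ⟨hτ, h2, h3, h4, h5⟩ := hlarge t hgt.le
    obtain ⟨-, r0⟩ := hrate (sgN n t) hτ
    obtain ⟨-, r1, r2, r3⟩ := r0 q
    have hτ0 : sgN n t ∈ Ico 0 TE := ⟨le_trans ht₂0.le hτ.1, hτ.2⟩
    obtain ⟨-, -, c3, c4⟩ := hcn (sgN n t) hτ0
    obtain ⟨c5, -⟩ := c4 q
    rw [h5 q] at r1
    have hexp : 0 < Real.exp (-a * t) := Real.exp_pos _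
    have hC1 : C ≤ 3 * n * C := by nlinarith
    have hge : 3 * n * C * Real.exp (-a * t) ≤
        (3 * n * C + (2 + |B₀|) * Real.exp (a * t')) * Real.exp (-a * t) :=
      mul_le_mul_of_nonneg_right (by linarith) hexp.le
    have hle1 : C * (TE - sgN n t) ^ α ≤ C * Real.exp (-a * t) :=
      mul_le_mul_of_nonneg_left h4 hC0.le
    constructor
    · refine (r1.trans hle1).trans (le_trans ?_ hge)
      exact mul_le_mul_of_nonneg_right hC1 hexp.le
    · obtain ⟨s, hs⟩ : ∃ s, s = TE - sgN n t := ⟨_, rfl⟩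
      obtain ⟨Y, hY⟩ : ∃ Y, Y = ‖HH (n := n) (FEN n F) q (sgN n t)‖ ^ 2 := ⟨_, rfl⟩
      rw [← hs, ← hY] at r3
      rw [← hs] at r2 h3 hle1
      have hth : thN n (FEN n F) q (sgN n t)
          = AA (n := n) (FEN n F) q (sgN n t) - Y / n := by rw [hY]; rfl
      have hAA : AA (n := n) F q t = 2 * n * s * AA (n := n) (FEN n F) q (sgN n t) := by
        rw [c5, tmN_sgN hnp, hs, ← hrr]
        field_simp
      rw [hS t ht q, hAA]
      rw [hth] at r2
      have e1 : 2 * n * s * AA (n := n) (FEN n F) q (sgN n t) - n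
          = 2 * n * (s * (AA (n := n) (FEN n F) q (sgN n t) - Y / n))
            + n * (2 / n * (s * Y) - 1) := by
        field_simp
        ring
      rw [e1]
      have e2 := (abs_le.1 r3).2
      have e3 : 2 * n * (s * (AA (n := n) (FEN n F) q (sgN n t) - Y / n))
          ≤ 2 * n * (C * s ^ α) := mul_le_mul_of_nonneg_left r2 (by positivity)
      have e4 : (n : ℝ) * (2 / n * (s * Y) - 1) ≤ n * (C * s ^ α) :=
        mul_le_mul_of_nonneg_left e2 hn0.le
      have e5 : 3 * n * (C * s ^ α) ≤ 3 * n * (C * Real.exp (-a * t)) :=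
        mul_le_mul_of_nonneg_left hle1 (by positivity)
      refine le_trans ?_ hge
      calc _ ≤ 3 * n * (C * s ^ α) := by linarith
        _ ≤ 3 * n * (C * Real.exp (-a * t)) := e5
        _ = _ := by ring

end Helper91.HC
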